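import Pool.Agent.Helper41.SQC.Goals

/-!
# MP_bb32d1_al, stage C, packet ZREP: the deformed modules `Z(lam)`
-/

set_option autoImplicit false
set_option linter.unusedSectionVars false

namespace Pool.Agent.Helper14.SQC

noncomputable section

open Matrix Pool.Agent.Helper19.SQ Pool.Agent.Helper34.SQ Pool.Agent.Helper41.SQ
  Pool.Agent.Helper4.SQ Pool.Agent.Helper41.SQC

section General

variable {R S : Type} [Ring R] [Algebra ℂ R] [Ring S] [Algebra ℂ S]

theorem rowM_map (f : R →ₐ[ℂ] S) (N : ℕ) (q : ℂ) (E : ℕ → R) (b : ℕ → ℕ → ℕ) (i : ℕ) :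
    rowM N q (fun k => f (E k)) b i = f (rowM N q E b i) := by
  unfold rowM
  rw [map_list_prod, List.map_map]
  congr 1
  refine List.map_congr_left fun d _ => ?_
  simp only [Function.comp_apply, map_pow, rv_map]

theorem mon_map (f : R →ₐ[ℂ] S) (N : ℕ) (q : ℂ) (E : ℕ → R) (b : ℕ → ℕ → ℕ) :
    mon N q (fun k => f (E k)) b = f (mon N q E b) := by
  unfold mon
  rw [map_list_prod, List.map_map]
  congr 1
  refine List.map_congr_left fun d _ => ?_
  simp only [Function.comp_apply, rowM_map]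

theorem commute_rvA {X : R} {q : ℂ} {F : ℕ → R} (h : ∀ k, Commute X (F k)) (d i : ℕ) :
    Commute X (rvA q F d i) := by
  induction d generalizing i with
  | zero => exact h i
  | succ d ih =>
    exact ((h i).mul_right (ih (i + 1))).sub_right (((ih (i + 1)).mul_right (h i)).smul_right _)

theorem commute_mon {X : R} {N : ℕ} {q : ℂ} {F : ℕ → R} (h : ∀ k, Commute X (F k))
    (b : ℕ → ℕ → ℕ) : Commute X (mon N q F b) := by
  unfold mon
  refine Commute.list_prod_right _ _ fun y hy => ?_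
  obtain ⟨i, -, rfl⟩ := List.mem_map.1 hy
  unfold rowM
  refine Commute.list_prod_right _ _ fun y hy => ?_
  obtain ⟨j, -, rfl⟩ := List.mem_map.1 hy
  exact (commute_rvA h _ _).pow_right _

theorem rvA_out {N : ℕ} {q : ℂ} {E : ℕ → R} (h : ∀ i, N ≤ i → E i = 0) (d i : ℕ)
    (hi : N ≤ i + d) : rvA q E d i = 0 := by
  induction d generalizing i with
  | zero => exact h i hi
  | succ d ih =>
    show E i * rvA q E d (i + 1) - q⁻¹ • (rvA q E d (i + 1) * E i) = 0
    rw [ih (i + 1) (by omega), mul_zero, zero_mul, smul_zero, sub_zero]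

end General

/-- weights with prescribed differences. -/
theorem exists_lam (N l : ℕ) (μ : ℕ → ZMod l) :
    ∃ lam : Fin (N + 1) → ZMod l, ∀ k, k < N → lx lam k - lx lam (k + 1) = μ k := by
  refine ⟨fun i => ∑ m ∈ Finset.Ico (i : ℕ) N, μ m, fun k hk => ?_⟩
  have h1 : k < N + 1 := by omega
  have h2 : k + 1 < N + 1 := by omega
  simp only [lx, dif_pos h1, dif_pos h2]
  rw [Finset.sum_eq_sum_Ico_succ_bot hk, add_sub_cancel_right]

section Main

variable {N l : ℕ} {q : ℂ}

theorem qz_neg_nat [NeZero l] (h : q ^ l = 1) (a : ℕ) : qz q (-(a : ZMod l)) = q⁻¹ ^ a := by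
  have h1 : qz q (a : ZMod l) * qz q (-(a : ZMod l)) = 1 := by
    rw [← qz_add h, add_neg_cancel, qz_zero]
  have hq : q ≠ 0 := by
    rintro rfl
    rw [zero_pow (NeZero.ne l)] at h
    exact zero_ne_one h
  rw [qz_nat h] at h1
  rw [inv_pow]
  exact eq_inv_of_mul_eq_one_right h1

theorem zE_C [NeZero l] (h : q ^ l = 1) (V : VD N l q) {lam : Fin (N + 1) → ZMod l} {k : ℕ}
    (hk : k < N) {a : ℕ} (ha : lx lam k - lx lam (k + 1) = (a : ZMod l)) :
    zE V (fun _ => (1 : ℂ)) (fun _ => 1) lam k = q ^ a • V.P k - q⁻¹ ^ a • V.Q k := by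
  have h2 : lx lam (k + 1) - lx lam k = -(a : ZMod l) := by rw [← ha, neg_sub]
  have h3 : ∀ m : Matrix (EX N l) (EX N l) ℂ, m.map (algebraMap ℂ ℂ) = m := fun m => by
    ext i j
    rfl
  rw [zE, if_pos hk, ha, h2, qz_nat h, qz_neg_nat h, h3, h3]
  simp only [mul_one, Algebra.algebraMap_self, RingHom.id_apply]

variable {B : Type} [CommRing B] [Algebra ℂ B]

/-- entrywise `algebraMap`. -/
def i0 (N l : ℕ) (B : Type) [CommRing B] [Algebra ℂ B] :
    Matrix (EX N l) (EX N l) ℂ →ₐ[ℂ] Matrix (EX N l) (EX N l) B :=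
  (Algebra.ofId ℂ B).mapMatrix

theorem i0_apply (m : Matrix (EX N l) (EX N l) ℂ) : i0 N l B m = m.map (algebraMap ℂ B) := rfl

theorem zF_i0 (k : ℕ) : zF N l q B k = i0 N l B (zF N l q ℂ k) := by
  ext i j
  rfl

theorem zK_i0 (lam : Fin (N + 1) → ZMod l) (j : ℕ) :
    zK q B lam j = i0 N l B (zK q ℂ lam j) := by
  unfold zK
  split_ifs with h
  · rw [i0_apply, Matrix.diagonal_map (map_zero _)]
    rfl
  · rw [map_one]

theorem zE_B (V : VD N l q) (t t' : ℕ → B) (lam : Fin (N + 1) → ZMod l) {k : ℕ} (hk : k < N) :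
    zE V t t' lam k
      = algebraMap B (Matrix (EX N l) (EX N l) B)
          (algebraMap ℂ B (qz q (lx lam k - lx lam (k + 1))) * t k) * i0 N l B (V.P k)
        - algebraMap B (Matrix (EX N l) (EX N l) B)
          (algebraMap ℂ B (qz q (lx lam (k + 1) - lx lam k)) * t' k) * i0 N l B (V.Q k) := by
  rw [zE, if_pos hk, Algebra.smul_def, Algebra.smul_def]
  rfl

/-- the part of `K_j` which does not depend on the weight. -/
def Dm (N l : ℕ) (q : ℂ) (j : ℕ) : Matrix (EX N l) (EX N l) ℂ :=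
  Matrix.diagonal fun a => q ^ wz N a.1 j

theorem zK_C (lam : Fin (N + 1) → ZMod l) {j : ℕ} (hj : j ≤ N) :
    zK q ℂ lam j = qz q (lx lam j) • Dm N l q j := by
  rw [zK, if_pos hj, Dm, ← Matrix.diagonal_smul]
  rfl

theorem qz_sub_pow [NeZero l] (h : q ^ l = 1) (a b : ZMod l) :
    qz q a * qz q b ^ (l - 1) = qz q (a - b) := by
  have hl : l ≠ 0 := NeZero.ne l
  have h1 : qz q b ^ (l - 1) * qz q b = 1 := by
    rw [← pow_succ, Nat.sub_add_cancel (Nat.one_le_iff_ne_zero.2 hl), qz_pow_l h]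
  have h2 : qz q (a - b) * qz q b = qz q a := by rw [← qz_add h, sub_add_cancel]
  calc qz q a * qz q b ^ (l - 1) = qz q (a - b) * (qz q b ^ (l - 1) * qz q b) := by
        rw [← h2]; ring
    _ = qz q (a - b) := by rw [h1, mul_one]

/-- `K_k K_{k+1}^(l-1)` over `ℂ`. -/
theorem kk1_C [NeZero l] (h : q ^ l = 1) (lam : Fin (N + 1) → ZMod l) {k : ℕ} (hk : k < N) :
    zK q ℂ lam k * zK q ℂ lam (k + 1) ^ (l - 1)
      = qz q (lx lam k - lx lam (k + 1)) • (Dm N l q k * Dm N l q (k + 1) ^ (l - 1)) := by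
  rw [zK_C lam (by omega : k ≤ N), zK_C lam (by omega : k + 1 ≤ N), smul_pow, smul_mul_smul_comm,
    qz_sub_pow h]

theorem kk2_C [NeZero l] (h : q ^ l = 1) (lam : Fin (N + 1) → ZMod l) {k : ℕ} (hk : k < N) :
    zK q ℂ lam k ^ (l - 1) * zK q ℂ lam (k + 1)
      = qz q (lx lam (k + 1) - lx lam k) • (Dm N l q k ^ (l - 1) * Dm N l q (k + 1)) := by
  rw [zK_C lam (by omega : k ≤ N), zK_C lam (by omega : k + 1 ≤ N), smul_pow, smul_mul_smul_comm,
    mul_comm (qz q (lx lam k) ^ (l - 1)), qz_sub_pow h]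

theorem i0_smul (c : ℂ) (m : Matrix (EX N l) (EX N l) ℂ) :
    i0 N l B (c • m) = algebraMap B (Matrix (EX N l) (EX N l) B) (algebraMap ℂ B c) * i0 N l B m := by
  rw [map_smul, Algebra.smul_def, IsScalarTower.algebraMap_apply ℂ B (Matrix (EX N l) (EX N l) B)]

theorem zE_out (V : VD N l q) (t t' : ℕ → B) (lam : Fin (N + 1) → ZMod l) {k : ℕ}
    (hk : N ≤ k) : zE V t t' lam k = 0 := if_neg (by omega)

theorem glT_z (h1 : S_ZC) (h2 : S_INT) [NeZero l] (D : Dl N l q) (hP : Par N l q) (V : VD N l q)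
    (t t' : ℕ → B) (htt : ∀ i, t i * t' i = 1) (lam : Fin (N + 1) → ZMod l) :
    GlT N l q (fun i => algebraMap B (Matrix (EX N l) (EX N l) B) (t i))
      (fun i => algebraMap B (Matrix (EX N l) (EX N l) B) (t' i))
      (zE V t t' lam) (zF N l q B) (zK q B lam) := by
  have hq : q ^ l = 1 := hP.prim.pow_eq_one
  have hB := ((h1 N l q D hP V lam).1).map (i0 N l B)
  have hF : (fun i => i0 N l B (zF N l q ℂ i)) = zF N l q B := by
    funext i; exact (zF_i0 i).symm
  have hK : (fun i => i0 N l B (zK q ℂ lam i)) = zK q B lam := by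
    funext i; exact (zK_i0 lam i).symm
  rw [hF, hK] at hB
  have hc : ∀ (b : B) (z : Matrix (EX N l) (EX N l) B),
      algebraMap B (Matrix (EX N l) (EX N l) B) b * z
        = z * algebraMap B (Matrix (EX N l) (EX N l) B) b := fun b z => Algebra.commutes b z
  have hI := fun (P Q P' Q' : Matrix (EX N l) (EX N l) ℂ) (x xi y yi : B) =>
    h2 (Matrix (EX N l) (EX N l) ℂ) (Matrix (EX N l) (EX N l) B) l q hP.odd hP.h3 hP.prim
      (i0 N l B) P Q P' Q' _ _ _ _ (hc x) (hc xi) (hc y) (hc yi)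
  have hCF : ∀ k, zF N l q ℂ k = PhM N l q k := fun k => by
    ext i j
    rfl
  -- weights with one or two prescribed differences
  have hone : ∀ (k a : ℕ), k < N → ∃ lam : Fin (N + 1) → ZMod l,
      GlRel N l q (zE V (fun _ => (1 : ℂ)) (fun _ => 1) lam) (zF N l q ℂ) (zK q ℂ lam) ∧
      lx lam k - lx lam (k + 1) = (a : ZMod l) ∧
      zE V (fun _ => (1 : ℂ)) (fun _ => 1) lam k = q ^ a • V.P k - q⁻¹ ^ a • V.Q k := by
    intro k a hk
    obtain ⟨lam, hl⟩ := exists_lam N l fun _ => (a : ZMod l)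
    exact ⟨lam, (h1 N l q D hP V lam).1, hl k hk, zE_C hq V hk (hl k hk)⟩
  have htwo : ∀ (k k' a b : ℕ), k < N → k' < N → k ≠ k' → ∃ lam : Fin (N + 1) → ZMod l,
      GlRel N l q (zE V (fun _ => (1 : ℂ)) (fun _ => 1) lam) (zF N l q ℂ) (zK q ℂ lam) ∧
      zE V (fun _ => (1 : ℂ)) (fun _ => 1) lam k = q ^ a • V.P k - q⁻¹ ^ a • V.Q k ∧
      zE V (fun _ => (1 : ℂ)) (fun _ => 1) lam k' = q ^ b • V.P k' - q⁻¹ ^ b • V.Q k' := by
    intro k k' a b hk hk' hne
    obtain ⟨lam, hl⟩ := exists_lam N l fun m => if m = k then (a : ZMod l) else (b : ZMod l)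
    refine ⟨lam, (h1 N l q D hP V lam).1, zE_C hq V hk ?_, zE_C hq V hk' ?_⟩
    · rw [hl k hk, if_pos rfl]
    · rw [hl k' hk', if_neg (Ne.symm hne)]
  refine
    { tc := fun i x => hc _ _
      tc' := fun i x => hc _ _
      tt := fun i => ?_
      E_out := fun i hi => zE_out V t t' lam hi
      F_out := hB.F_out
      K_out := hB.K_out
      K_comm := hB.K_comm
      K_pow := hB.K_pow
      KE := fun j i => ?_
      KF := hB.KF
      EF := fun i hi => ?_
      EF_ne := fun i j hij => ?_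
      sE := ⟨fun i j hij => ?_, fun i => ?_, fun i => ?_⟩
      sF := hB.sF
      pF := hB.pF }
  · rw [← map_mul, htt, map_one]
  · -- KE
    by_cases hi : i < N
    swap
    · rw [zE_out V t t' lam (by omega), mul_zero, zero_mul, smul_zero]
    by_cases hj : j ≤ N
    swap
    · rw [hB.K_out j (by omega), one_mul, mul_one]
      have : pr j i = 0 := by
        unfold pr
        rw [if_neg (by omega), if_neg (by omega)]
      rw [this, zpow_zero, one_smul]
    have h4 := (hI (V.P i) (V.Q i) 0 0 (algebraMap ℂ B (qz q (lx lam i - lx lam (i + 1))) * t i)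
      (algebraMap ℂ B (qz q (lx lam (i + 1) - lx lam i)) * t' i) 0 0).2.2.2 (Dm N l q j)
      (q ^ pr j i) ?_
    · rw [← zE_B V t t' lam hi] at h4
      rw [zK_i0, zK_C lam hj, i0_smul, mul_assoc, h4, mul_smul_comm, ← mul_assoc,
        hc _ (zE V t t' lam i), mul_assoc]
    · intro a
      obtain ⟨mu, hG, hmu, hE⟩ := hone i a hi
      have h5 := hG.KE j i
      rw [hE, zK_C mu hj, smul_mul_assoc, mul_smul_comm, smul_comm (q ^ pr j i)] at h5
      exact smul_right_injective _ (qz_ne_zero hq (lx mu j)) h5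
  · -- EF
    have h3 := (hI (V.P i) (V.Q i) 0 0 (algebraMap ℂ B (qz q (lx lam i - lx lam (i + 1))) * t i)
      (algebraMap ℂ B (qz q (lx lam (i + 1) - lx lam i)) * t' i) 0 0).2.2.1 (zF N l q ℂ i)
      (Dm N l q i * Dm N l q (i + 1) ^ (l - 1)) (Dm N l q i ^ (l - 1) * Dm N l q (i + 1))
      ((q - q⁻¹)⁻¹) ?_
    · rw [← zE_B V t t' lam hi, ← zF_i0] at h3
      have hk1 : zK q B lam i = i0 N l B (zK q ℂ lam i) := zK_i0 lam i
      have hk2 : zK q B lam (i + 1) = i0 N l B (zK q ℂ lam (i + 1)) := zK_i0 lam (i + 1)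
      rw [h3, hk1, hk2, ← map_pow, ← map_pow, ← map_mul (i0 N l B), ← map_mul (i0 N l B),
        kk1_C hq lam hi, kk2_C hq lam hi, i0_smul, i0_smul, ← mul_assoc, ← mul_assoc, ← map_mul,
        ← map_mul, mul_comm (t i), mul_comm (t' i)]
    · intro a
      obtain ⟨mu, hG, hmu, hE⟩ := hone i a hi
      have h5 := hG.EF i hi
      have hmu' : lx mu (i + 1) - lx mu i = -(a : ZMod l) := by rw [← hmu, neg_sub]
      rw [hE, kk1_C hq mu hi, kk2_C hq mu hi, hmu, hmu', qz_nat hq, qz_neg_nat hq] at h5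
      exact h5
  · -- EF_ne
    by_cases hi : i < N
    swap
    · rw [zE_out V t t' lam (by omega), mul_zero, zero_mul]
    have h3 := (hI (V.P i) (V.Q i) 0 0 (algebraMap ℂ B (qz q (lx lam i - lx lam (i + 1))) * t i)
      (algebraMap ℂ B (qz q (lx lam (i + 1) - lx lam i)) * t' i) 0 0).2.2.1 (zF N l q ℂ j)
      0 0 0 ?_
    · rw [← zE_B V t t' lam hi, ← zF_i0, zero_smul] at h3
      exact sub_eq_zero.1 h3
    · intro a
      obtain ⟨mu, hG, hmu, hE⟩ := hone i a hi
      have h5 := hG.EF_ne i j hij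
      rw [hE] at h5
      rw [h5, sub_self, zero_smul]
  · -- far
    by_cases hj : j < N
    swap
    · rw [zE_out V t t' lam (by omega : N ≤ j), mul_zero, zero_mul]
    have hi : i < N := by omega
    have h3 := (hI (V.P i) (V.Q i) (V.P j) (V.Q j)
      (algebraMap ℂ B (qz q (lx lam i - lx lam (i + 1))) * t i)
      (algebraMap ℂ B (qz q (lx lam (i + 1) - lx lam i)) * t' i)
      (algebraMap ℂ B (qz q (lx lam j - lx lam (j + 1))) * t j)
      (algebraMap ℂ B (qz q (lx lam (j + 1) - lx lam j)) * t' j)).1 ?_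
    · rw [← zE_B V t t' lam hi, ← zE_B V t t' lam hj] at h3
      exact h3
    · intro a b
      obtain ⟨mu, hG, hE, hE'⟩ := htwo i j a b hi hj (by omega)
      have h5 := hG.sE.far i j hij
      rw [hE, hE'] at h5
      exact h5
  · -- s1
    by_cases hj : i + 1 < N
    swap
    · rw [zE_out V t t' lam (by omega : N ≤ i + 1), mul_zero, mul_zero, zero_mul, zero_mul,
        smul_zero, sub_zero, add_zero]
    have hi : i < N := by omega
    have h3 := (hI (V.P i) (V.Q i) (V.P (i + 1)) (V.Q (i + 1))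
      (algebraMap ℂ B (qz q (lx lam i - lx lam (i + 1))) * t i)
      (algebraMap ℂ B (qz q (lx lam (i + 1) - lx lam i)) * t' i)
      (algebraMap ℂ B (qz q (lx lam (i + 1) - lx lam (i + 1 + 1))) * t (i + 1))
      (algebraMap ℂ B (qz q (lx lam (i + 1 + 1) - lx lam (i + 1))) * t' (i + 1))).2.1 ?_
    · rw [← zE_B V t t' lam hi, ← zE_B V t t' lam hj] at h3
      exact h3
    · intro a b
      obtain ⟨mu, hG, hE, hE'⟩ := htwo i (i + 1) a b hi hj (by omega)
      have h5 := hG.sE.s1 i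
      rw [hE, hE'] at h5
      exact h5
  · -- s2
    by_cases hj : i + 1 < N
    swap
    · rw [zE_out V t t' lam (by omega : N ≤ i + 1)]
      simp
    have hi : i < N := by omega
    have h3 := (hI (V.P (i + 1)) (V.Q (i + 1)) (V.P i) (V.Q i)
      (algebraMap ℂ B (qz q (lx lam (i + 1) - lx lam (i + 1 + 1))) * t (i + 1))
      (algebraMap ℂ B (qz q (lx lam (i + 1 + 1) - lx lam (i + 1))) * t' (i + 1))
      (algebraMap ℂ B (qz q (lx lam i - lx lam (i + 1))) * t i)
      (algebraMap ℂ B (qz q (lx lam (i + 1) - lx lam i)) * t' i)).2.1 ?_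
    · rw [← zE_B V t t' lam hi, ← zE_B V t t' lam hj] at h3
      exact h3
    · intro a b
      obtain ⟨mu, hG, hE, hE'⟩ := htwo (i + 1) i a b hj hi (by omega)
      have h5 := hG.sE.s2 i
      rw [hE, hE'] at h5
      exact h5

/-! ### the vector `1` -/

theorem cn_zX [NeZero l] (k : ℕ) : cn N (zX N l).1 k = 0 := by
  unfold cn
  exact Finset.sum_eq_zero fun i _ => Finset.sum_eq_zero fun j _ => rfl

theorem P_zX [NeZero l] (V : VD N l q) {k : ℕ} (hk : k < N) (b : EX N l) :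
    V.P k b (zX N l) = 0 := by
  by_contra h
  have := V.hP k hk _ _ h k hk
  rw [cn_zX, if_pos rfl] at this
  omega

theorem Q_zX [NeZero l] (V : VD N l q) {k : ℕ} (hk : k < N) (b : EX N l) :
    V.Q k b (zX N l) = 0 := by
  by_contra h
  have := V.hQ k hk _ _ h k hk
  rw [cn_zX, if_pos rfl] at this
  omega

theorem zE_zX [NeZero l] (V : VD N l q) (t t' : ℕ → B) (lam : Fin (N + 1) → ZMod l) (k : ℕ) :
    zE V t t' lam k *ᵥ Pi.single (zX N l) 1 = 0 := by
  by_cases hk : k < N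
  · ext b
    rw [Matrix.mulVec_single_one, zE, if_pos hk]
    simp [P_zX V hk, Q_zX V hk]
  · rw [zE_out V t t' lam (by omega), Matrix.zero_mulVec]

theorem zK_zX [NeZero l] (lam : Fin (N + 1) → ZMod l) (j : Fin (N + 1)) :
    zK q B lam j *ᵥ Pi.single (zX N l) 1
      = algebraMap ℂ B (qz q (lam j)) • (Pi.single (zX N l) 1 : EX N l → B) := by
  have hj : (j : ℕ) ≤ N := by omega
  have hw : wz N (zX N l).1 (j : ℕ) = 0 := by
    unfold wz
    simp [cn_zX]
  have hlx : lx lam (j : ℕ) = lam j := by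
    unfold lx
    rw [dif_pos j.2]
  rw [zK, if_pos hj, Matrix.diagonal_mulVec_single, hw, zpow_zero, mul_one, mul_one, hlx]
  ext b
  by_cases hb : b = zX N l
  · subst hb
    simp
  · simp [Pi.single_eq_of_ne hb]

theorem mon_zX (h1 : S_ZC) [NeZero l] (D : Dl N l q) (hP : Par N l q) (V : VD N l q)
    (a : EX N l) :
    mon N q (zF N l q B) a.1 *ᵥ Pi.single (zX N l) 1 = Pi.single a 1 := by
  have h := (h1 N l q D hP V 0).2.2 a
  have hF : (fun i => i0 N l B (zF N l q ℂ i)) = zF N l q B := by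
    funext i; exact (zF_i0 i).symm
  rw [← hF, mon_map, Matrix.mulVec_single_one]
  rw [Matrix.mulVec_single_one] at h
  ext b
  have h' := congrFun h b
  rw [Matrix.col_apply] at h' ⊢
  rw [i0_apply, Matrix.map_apply, h']
  by_cases hb : b = a
  · subst hb
    simp
  · simp [Pi.single_eq_of_ne hb]

theorem rvA_zX [NeZero l] (V : VD N l q) (t t' : ℕ → B) (lam : Fin (N + 1) → ZMod l) (d i : ℕ) :
    rvA q (zE V t t' lam) d i *ᵥ Pi.single (zX N l) 1 = 0 := by
  induction d generalizing i with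
  | zero => exact zE_zX V t t' lam i
  | succ d ih =>
    show (zE V t t' lam i * rvA q (zE V t t' lam) d (i + 1)
      - q⁻¹ • (rvA q (zE V t t' lam) d (i + 1) * zE V t t' lam i)) *ᵥ Pi.single (zX N l) 1 = 0
    rw [Matrix.sub_mulVec, Matrix.smul_mulVec, ← Matrix.mulVec_mulVec, ← Matrix.mulVec_mulVec,
      ih (i + 1), zE_zX, Matrix.mulVec_zero, Matrix.mulVec_zero, smul_zero, sub_zero]

theorem c_zrep (h1 : S_ZC) (h2 : S_INT) (h3 : S_PEC) : S_ZREP := by
  intro N l _ q D hP V B _ _ t t' htt lam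
  have hG := glT_z h1 h2 D hP V t t' htt lam
  refine ⟨hG, fun d i => ?_, zE_zX V t t' lam, zK_zX lam, mon_zX h1 D hP V⟩
  have hl : l ≠ 0 := NeZero.ne l
  by_cases hd : i + d + 1 ≤ N
  swap
  · rw [rvA_out (N := N) (fun i hi => zE_out V t t' lam hi) d i (by omega), zero_pow hl]
  have hX := h3 _ N l q _ _ _ _ _ hP hG i (i + d + 1) (by omega) hd
  have hr : rv q (zE V t t' lam) i (i + d + 1) = rvA q (zE V t t' lam) d i := by
    unfold rv
    congr 1
    omega
  rw [hr] at hX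
  have h0 : rvA q (zE V t t' lam) d i ^ l *ᵥ Pi.single (zX N l) 1 = 0 := by
    obtain ⟨m, rfl⟩ := Nat.exists_eq_succ_of_ne_zero hl
    rw [pow_succ, ← Matrix.mulVec_mulVec, rvA_zX, Matrix.mulVec_zero]
  have h5 : ∀ a : EX N l, rvA q (zE V t t' lam) d i ^ l *ᵥ Pi.single a 1 = 0 := by
    intro a
    rw [← mon_zX h1 D hP V a, Matrix.mulVec_mulVec,
      (commute_mon (N := N) (q := q) (fun k => (hX k : Commute _ (zF N l q B k))) a.1).eq,
      ← Matrix.mulVec_mulVec, h0, Matrix.mulVec_zero]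
  ext b a
  have h6 := congrFun (h5 a) b
  rw [Matrix.mulVec_single_one] at h6
  exact h6

end Main

end

end Pool.Agent.Helper14.SQC
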